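import Pool.Agent.HAR.Stmts

/-!
# Squad HAR, row CVR: a cover by twelve sets
-/

namespace Pool.Agent.HAR.H18

/-- an interval -/
def iv (n m k : ℕ) : Finset (Fin n) := Finset.univ.filter fun x : Fin n => m ≤ x.1 ∧ x.1 < m + k

lemma card_iv {n m k : ℕ} (h : m + k ≤ n) : (iv n m k).card = k := by
  have h1 : (iv n m k).map Fin.valEmbedding = Finset.Ico m (m + k) := by
    ext x
    simp only [iv, Finset.mem_map, Finset.mem_filter, Finset.mem_univ, true_and,
      Fin.valEmbedding_apply, Finset.mem_Ico]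
    constructor
    · rintro ⟨a, ha, rfl⟩
      exact ha
    · intro hx
      exact ⟨⟨x, by omega⟩, hx, rfl⟩
  rw [← Finset.card_map Fin.valEmbedding, h1, Nat.card_Ico]
  omega

/-- **CVR.** -/
theorem cvr : CvrStmt := by
  intro n hn
  have hk1 : n ≤ 12 * kk n := by unfold kk; omega
  have hk2 : 2 * kk n ≤ n := by unfold kk; omega
  have hk0 : 0 < kk n := by unfold kk; omega
  let m : Fin 12 → ℕ := fun a => min (a.1 * kk n) (n - kk n)
  let A : Fin 12 → Finset (Fin n) := fun a => iv n (m a) (kk n)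
  have hA : ∀ a, (A a).card = kk n := by
    intro a
    refine card_iv ?_
    have : m a ≤ n - kk n := min_le_right _ _
    omega
  have hS : ∀ a b : Fin 12, ∃ t : Finset (Fin n), A a ∪ A b ⊆ t ∧ t.card = 2 * kk n := by
    intro a b
    refine Finset.exists_superset_card_eq ?_ ?_
    · have := Finset.card_union_le (A a) (A b)
      rw [hA, hA] at this
      omega
    · rw [Fintype.card_fin]
      exact hk2
  choose S hS1 hS2 using hS
  refine ⟨A, S, hA, ?_, fun a b => ⟨hS2 a b, Finset.union_subset_left (hS1 a b),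
    Finset.union_subset_right (hS1 a b)⟩⟩
  intro x
  have hx := x.2
  have hq : x.1 / kk n < 12 := by
    rw [Nat.div_lt_iff_lt_mul hk0]
    omega
  refine ⟨⟨x.1 / kk n, hq⟩, ?_⟩
  have h1 : x.1 / kk n * kk n ≤ x.1 := Nat.div_mul_le_self _ _
  have h2 : x.1 < x.1 / kk n * kk n + kk n := by
    have h3 := Nat.lt_succ_iff.2 (le_refl (x.1 / kk n))
    rw [Nat.div_lt_iff_lt_mul hk0] at h3
    rw [Nat.succ_mul] at h3
    exact h3
  simp only [A, m, iv, Finset.mem_filter, Finset.mem_univ, true_and]
  rcases le_total (x.1 / kk n * kk n) (n - kk n) with h | h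
  · rw [min_eq_left h]
    exact ⟨h1, h2⟩
  · rw [min_eq_right h]
    omega

end Pool.Agent.HAR.H18
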